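import Pool.Agent.Y255.FR.Closed

/-!
Recurrence coefficients for non-symmetric Freud-type weights: for all parameters `α, A, B, L` the
limits asserted for every weight of type (H) fail on an open dense set of potentials `Q` in the
uniform topology, and this set is reached from every potential by a `C^∞` perturbation that is
uniformly as small as desired.

The weight, the hypothesis (H), the normalizing sequence `c_n = cseq α Ls n`, the constants and the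
recurrence relation are the ones defined in `Pool.Agent.Results.MP_e8d659_an.NoLimit`.
-/

open Polynomial MeasureTheory Filter Topology
open Pool.Agent.Results.MP_e8d659_an.NoLimit
open scoped ContDiff

namespace Pool.Agent.Results.MP_e8d659_an.GenericFailure

/-- `a`, `b` are the Jacobi recurrence coefficients of the weight `exp(-2Q)`. -/
def IsCoeff (Q : ℝ → ℝ) (a b : ℕ → ℝ) : Prop :=
  ∃ p : ℕ → ℝ[X], IsOrthonormal Q p ∧ IsRecurrence p a b

/-- `exp(-2Q)` has finite moments and `Q` satisfies (H) with the data `α, A, B, L`. -/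
def InClass (Q : ℝ → ℝ) (α A B : ℝ) (L : ℝ → ℝ) : Prop := FiniteMoments Q ∧ HypH Q α A B L

/-- The recurrence coefficients exist and `a_n / c_n` has no positive limit. -/
def NoLimA (Q : ℝ → ℝ) (cs : ℕ → ℝ) : Prop :=
  (∃ a b, IsCoeff Q a b) ∧ ∀ a b, IsCoeff Q a b → ∀ ℓ : ℝ, 0 < ℓ →
    ¬ Tendsto (fun n => a n / cs n) atTop (𝓝 ℓ)

/-- The recurrence coefficients exist and `b_n / c_n` has no limit. -/
def NoLimB (Q : ℝ → ℝ) (cs : ℕ → ℝ) : Prop :=
  (∃ a b, IsCoeff Q a b) ∧ ∀ a b, IsCoeff Q a b → ∀ m : ℝ,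
    ¬ Tendsto (fun n => b n / cs n) atTop (𝓝 m)

/-- `a_n / c_n` has a positive limit and `b_n / c_n` has a limit. -/
def Regular (Q : ℝ → ℝ) (cs : ℕ → ℝ) : Prop :=
  ∃ a b, IsCoeff Q a b ∧ ∃ ℓ m : ℝ, 0 < ℓ ∧ Tendsto (fun n => a n / cs n) atTop (𝓝 ℓ) ∧
    Tendsto (fun n => b n / cs n) atTop (𝓝 m)

open Pool.Agent.Y255.FR

theorem isCoeff_an {Q : ℝ → ℝ} (hQ : FiniteMoments Q) :
    IsCoeff Q (an (weight Q)) (bn (weight Q)) := by
  obtain ⟨h1, h2⟩ := orthonormal_of_isWeight Q (isWeight_of_fm hQ)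
  exact ⟨_, h1, h2⟩

/-- Limits do not depend on the choice of the coefficient sequences. -/
theorem lim_iff {Q : ℝ → ℝ} (hQ : FiniteMoments Q) {a b : ℕ → ℝ} (h : IsCoeff Q a b)
    (cs : ℕ → ℝ) (ℓ m : ℝ) :
    (Tendsto (fun n => a n / cs n) atTop (𝓝 ℓ) ↔
      Tendsto (fun n => an (weight Q) n / cs n) atTop (𝓝 ℓ)) ∧
    (Tendsto (fun n => b n / cs n) atTop (𝓝 m) ↔
      Tendsto (fun n => bn (weight Q) n / cs n) atTop (𝓝 m)) := by
  obtain ⟨p, hp, hr⟩ := h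
  obtain ⟨h1, h2⟩ := coeff_unique (isWeight_of_fm hQ) hp hr
  constructor
  · refine tendsto_congr' ?_
    filter_upwards [eventually_gt_atTop 0] with n hn
    obtain ⟨k, rfl⟩ := Nat.exists_eq_succ_of_ne_zero hn.ne'
    rw [h1]
  · refine tendsto_congr fun n => ?_
    rw [h2]

theorem noLimA_iff {Q : ℝ → ℝ} (hQ : FiniteMoments Q) (cs : ℕ → ℝ) :
    NoLimA Q cs ↔ ∀ ℓ : ℝ, 0 < ℓ → ¬ Tendsto (fun n => an (weight Q) n / cs n) atTop (𝓝 ℓ) := by
  constructor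
  · intro h
    exact h.2 _ _ (isCoeff_an hQ)
  · intro h
    refine ⟨⟨_, _, isCoeff_an hQ⟩, fun a b hab ℓ hℓ hlim => h ℓ hℓ ?_⟩
    exact ((lim_iff hQ hab cs ℓ 0).1).1 hlim

theorem noLimB_iff {Q : ℝ → ℝ} (hQ : FiniteMoments Q) (cs : ℕ → ℝ) :
    NoLimB Q cs ↔ ∀ m : ℝ, ¬ Tendsto (fun n => bn (weight Q) n / cs n) atTop (𝓝 m) := by
  constructor
  · intro h
    exact h.2 _ _ (isCoeff_an hQ)
  · intro h
    refine ⟨⟨_, _, isCoeff_an hQ⟩, fun a b hab m hlim => h m ?_⟩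
    exact ((lim_iff hQ hab cs 0 m).2).1 hlim

/-- **Generic failure of the limits of the recurrence coefficients.** Let `α, A, B, L` be any
parameters of hypothesis (H), `Ls` a de Bruijn conjugate of `L`, and `c_n` the normalizing
sequence. There are potentials satisfying (H) with these parameters, and for each such potential
`Q₀` and each `ε > 0` there are a `C^∞` function `φ` with `|φ| ≤ ε` and a radius `r > 0` such that
every measurable `Q` with `|Q - Q₀ - φ| ≤ r` satisfies (H) with the same parameters (with finite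
moments), its `a_n / c_n` has no positive limit, and therefore the limits predicted by the
conjecture fail for it. If `a_n / c_n` has a positive limit and `b_n / c_n` has a limit for `Q₀`,
then moreover `b_n / c_n` has no limit for these `Q`. -/
theorem result (α A B : ℝ) (L Ls : ℝ → ℝ) (hα : 0 < α) (hA : 0 < A) (hB : 0 < B)
    (hAB : A / B ≤ 1) (hL : SlowlyVarying L) (hLs : DeBruijnConjugate L Ls) :
    (∃ Q₀, InClass Q₀ α A B L) ∧
    ∀ Q₀, InClass Q₀ α A B L → ∀ ε : ℝ, 0 < ε →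
      ∃ (φ : ℝ → ℝ) (r : ℝ), 0 < r ∧ ContDiff ℝ ∞ φ ∧ (∀ x, |φ x| ≤ ε) ∧
        ∀ Q : ℝ → ℝ, Measurable Q → (∀ x, |Q x - (Q₀ x + φ x)| ≤ r) →
          InClass Q α A B L ∧ NoLimA Q (cseq α Ls) ∧
          (∀ c, IsC α A B c → ∀ a b, IsCoeff Q a b →
            ¬ (Tendsto (fun n => a n / cseq α Ls n) atTop (𝓝 (limA α A c)) ∧
              Tendsto (fun n => b n / cseq α Ls n) atTop (𝓝 (limB α A c)))) ∧
          (Regular Q₀ (cseq α Ls) → NoLimB Q (cseq α Ls)) := by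
  refine ⟨class_nonempty α A B L hα hA hB hAB hL, ?_⟩
  intro Q₀ hQ₀ ε hε
  have hS := hLs.1
  have hcs := cseq_pos hS α
  have hct := cseq_tendsto hS α hα
  have hcr := cseq_ratio hS α hα
  have hw₀ := isWeight_of_fm hQ₀.1
  -- it suffices to treat the canonical coefficient sequences
  suffices hmain : ∃ (φ : ℝ → ℝ) (r : ℝ), 0 < r ∧ ContDiff ℝ ∞ φ ∧ (∀ x, |φ x| ≤ ε) ∧
      ∀ Q : ℝ → ℝ, Measurable Q → (∀ x, |Q x - (Q₀ x + φ x)| ≤ r) → FiniteMoments Q →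
        (∀ ℓ : ℝ, 0 < ℓ → ¬ Tendsto (fun n => an (weight Q) n / cseq α Ls n) atTop (𝓝 ℓ)) ∧
        (Regular Q₀ (cseq α Ls) → ∀ m : ℝ,
          ¬ Tendsto (fun n => bn (weight Q) n / cseq α Ls n) atTop (𝓝 m)) by
    obtain ⟨φ, r, hr0, hφ, hφε, hr⟩ := hmain
    refine ⟨φ, r, hr0, hφ, hφε, fun Q hQ hQr => ?_⟩
    have hclose : ∀ x, |Q x - Q₀ x| ≤ r + ε := by
      intro x
      have h1 := abs_add_le (Q x - (Q₀ x + φ x)) (φ x)
      rw [show Q x - (Q₀ x + φ x) + φ x = Q x - Q₀ x by ring] at h1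
      linarith [hQr x, hφε x]
    have hfm := fm_of_close _ hQ₀.1 hQ hclose
    obtain ⟨h1, h2⟩ := hr Q hQ hQr hfm
    have hNA : NoLimA Q (cseq α Ls) := (noLimA_iff hfm _).2 h1
    refine ⟨⟨hfm, hypH_of_close _ hQ₀.2 hclose⟩, hNA, ?_, fun hreg => (noLimB_iff hfm _).2 (h2 hreg)⟩
    intro c hc a b hab h
    exact hNA.2 a b hab _ (limA_pos' α A B c hα hA hc) h.1
  by_cases hA0 : ∃ ℓ : ℝ, 0 < ℓ ∧ Tendsto (fun n => an (weight Q₀) n / cseq α Ls n) atTop (𝓝 ℓ)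
  · obtain ⟨ℓ₀, hℓ₀, h0⟩ := hA0
    by_cases hB0 : Regular Q₀ (cseq α Ls)
    · obtain ⟨a, b, hab, ℓ, m, hℓ, ha, hb⟩ := hB0
      obtain ⟨-, e2⟩ := lim_iff hQ₀.1 hab (cseq α Ls) ℓ m
      obtain ⟨φ, hφ, hφε, r, hr0, hr⟩ := core_ab (cseq α Ls) hcs hct hcr Q₀ hQ₀.1.1
        hw₀ ℓ₀ m hℓ₀ h0 (e2.1 hb) ε hε
      exact ⟨φ, r, hr0, hφ, hφε, fun Q hQ hQr _ => ⟨(hr Q hQ hQr).1, fun _ => (hr Q hQ hQr).2⟩⟩
    · obtain ⟨φ, hφ, hφε, r, hr0, hr⟩ := core_a (cseq α Ls) hcs hct hcr Q₀ hQ₀.1.1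
        hw₀ ℓ₀ hℓ₀ h0 ε hε
      exact ⟨φ, r, hr0, hφ, hφε, fun Q hQ hQr _ => ⟨hr Q hQ hQr, fun h => absurd h hB0⟩⟩
  · -- the set of regular potentials is closed
    have hcl : ∃ r : ℝ, 0 < r ∧ ∀ Q, IsWeight (weight Q) → (∀ x, |Q x - Q₀ x| ≤ r) →
        ∀ ℓ : ℝ, 0 < ℓ → ¬ Tendsto (fun n => an (weight Q) n / cseq α Ls n) atTop (𝓝 ℓ) := by
      by_contra hcon
      push Not at hcon
      exact hA0 (closed_a (cseq α Ls) hcs Q₀ hw₀ hcon)
    obtain ⟨r, hr0, hr⟩ := hcl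
    refine ⟨fun _ => 0, r, hr0, contDiff_const, fun x => by simpa using hε.le, ?_⟩
    intro Q hQ hQr hfm
    refine ⟨hr Q (isWeight_of_fm hfm) (fun x => by simpa using hQr x), fun hreg => ?_⟩
    obtain ⟨a, b, hab, ℓ, m, hℓ, ha, hb⟩ := hreg
    exact absurd ⟨ℓ, hℓ, ((lim_iff hQ₀.1 hab (cseq α Ls) ℓ m).1).1 ha⟩ hA0

end Pool.Agent.Results.MP_e8d659_an.GenericFailure
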